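import Pool.Agent.Helper14.W5.StC

/-!
# Project W5, module DimO: dimension of subO

The first lemmas are those of the module DimE.
-/

set_option autoImplicit false

namespace Pool.Agent.Helper29.W5

open Pool.Agent.Helper14.W5

section lin

variable {W W' : Type} [AddCommGroup W] [Module ℂ W] [FiniteDimensional ℂ W] [AddCommGroup W']
  [Module ℂ W']

private theorem rn (f : W →ₗ[ℂ] W') (V : Submodule ℂ W) :
    Module.finrank ℂ (V.map f) + Module.finrank ℂ ↥(V ⊓ LinearMap.ker f) =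
      Module.finrank ℂ V := by
  have h := LinearMap.finrank_range_add_finrank_ker (f.domRestrict V)
  rw [LinearMap.range_domRestrict, LinearMap.ker_domRestrict] at h
  have h2 : Module.finrank ℂ ↥((LinearMap.ker f).comap V.subtype) =
      Module.finrank ℂ ↥(V ⊓ LinearMap.ker f) := by
    rw [← Submodule.map_comap_subtype, Submodule.finrank_map_subtype_eq]
  rw [h2] at h
  exact h

private theorem fr_prod (V V' : Submodule ℂ W) :
    Module.finrank ℂ ↥(V.prod V') = Module.finrank ℂ V + Module.finrank ℂ V' := by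
  have h1 : V.prod V' = LinearMap.range (V.subtype.prodMap V'.subtype) := by
    rw [LinearMap.range_prodMap, Submodule.range_subtype, Submodule.range_subtype]
  rw [h1, LinearMap.finrank_range_of_inj, Module.finrank_prod]
  rintro ⟨a, b⟩ ⟨a', b'⟩ h
  simp only [LinearMap.prodMap_apply, Submodule.subtype_apply, Prod.mk.injEq,
    SetLike.coe_eq_coe] at h
  rw [h.1, h.2]

end lin

/-- `4` times the projection onto `inv5 r r' e e'` -/
private def P {m : ℕ} (r r' : Pt m → Pt m) (e e' : ℂ) : (Pt m → ℂ) →ₗ[ℂ] (Pt m → ℂ) where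
  toFun F p := F p + e * F (r p) + e' * F (r' p) + e * e' * F (r (r' p))
  map_add' F F' := by funext p; simp only [Pi.add_apply]; ring
  map_smul' c F := by funext p; simp only [Pi.smul_apply, smul_eq_mul, RingHom.id_apply]; ring

private theorem P_apply {m : ℕ} (r r' : Pt m → Pt m) (e e' : ℂ) (F : Pt m → ℂ) (p : Pt m) :
    P r r' e e' F p = F p + e * F (r p) + e' * F (r' p) + e * e' * F (r (r' p)) := rfl

private theorem anti_s {m : ℕ} {F : Pt m → ℂ} (hF : F ∈ anti5 m) (s : ℤ) (hs : s = 1 ∨ s = -1)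
    (x y : ZMod (5 ^ m)) :
    ∑ i ∈ Finset.range 5, F (x + s * (i * 5 ^ (m - 1)), y) = 0 ∧
      ∑ i ∈ Finset.range 5, F (x, y + s * (i * 5 ^ (m - 1))) = 0 := by
  rcases hs with rfl | rfl
  · have h := hF (x, y)
    simpa using h
  · have h1 := (hF (x - 4 * 5 ^ (m - 1), y)).1
    have h2 := (hF (x, y - 4 * 5 ^ (m - 1))).2
    have hc : ∀ i ∈ Finset.range 5, (((5 - 1 - i : ℕ) : ℕ) : ZMod (5 ^ m)) = 4 - i := by
      intro i hi
      have hi' : i ≤ 4 := by have := Finset.mem_range.1 hi; omega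
      rw [show 5 - 1 - i = 4 - i by omega, Nat.cast_sub hi']
      norm_num
    constructor
    · rw [← Finset.sum_range_reflect]
      rw [← h1]
      refine Finset.sum_congr rfl fun i hi => ?_
      rw [hc i hi]
      congr 2
      push_cast
      ring
    · rw [← Finset.sum_range_reflect]
      rw [← h2]
      refine Finset.sum_congr rfl fun i hi => ?_
      rw [hc i hi]
      congr 2
      push_cast
      ring

private theorem dv_step {m : ℕ} (hm : 1 ≤ m) {s : ℤ} {φ : ZMod (5 ^ m) → ZMod (5 ^ m)}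
    (h : Dv s φ) (x : ZMod (5 ^ m)) (i : ℕ) :
    φ (x + i * 5 ^ (m - 1)) = φ x + s * (i * 5 ^ (m - 1)) := by
  have h1 := h (m - 1) (x + i * 5 ^ (m - 1)) x ⟨i, by ring⟩
  have h2 : (5 : ZMod (5 ^ m)) ^ (m - 1 + 1) = 0 := by
    rw [Nat.sub_add_cancel hm]
    have h3 := ZMod.natCast_self (5 ^ m)
    push_cast at h3
    exact h3
  rw [h2, zero_dvd_iff] at h1
  linear_combination h1

private theorem anti_comp {m n : ℕ} (hm : 1 ≤ m) {r : Pt m → Pt m} (hr : Ty n r) {F : Pt m → ℂ}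
    (hF : F ∈ anti5 m) : (fun p => F (r p)) ∈ anti5 m := by
  rcases hr with ⟨_, φ, φ', hφ, hφ', hr⟩ | ⟨_, s, ψ, ψ', hs, hψ, hψ', hr⟩
  · intro p
    simp only [hr, dv_step hm hφ, dv_step hm hφ']
    exact ⟨(anti_s hF (-1) (Or.inr rfl) (φ p.1) (φ' p.2)).1,
      (anti_s hF (-1) (Or.inr rfl) (φ p.1) (φ' p.2)).2⟩
  · intro p
    simp only [hr, dv_step hm hψ, dv_step hm hψ']
    exact ⟨(anti_s hF s hs (ψ p.2) (ψ' p.1)).2, (anti_s hF s hs (ψ p.2) (ψ' p.1)).1⟩

private theorem P_mem {m n n' : ℕ} (hm : 1 ≤ m) {r r' : Pt m → Pt m} (hk : Kl r r') (hr : Ty n r)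
    (hr' : Ty n' r') {e e' : ℂ} (he : e * e = 1) (he' : e' * e' = 1) {F : Pt m → ℂ}
    (hF : F ∈ anti5 m) : P r r' e e' F ∈ inv5 r r' e e' := by
  obtain ⟨k1, k2, k3⟩ := hk
  have h1 : (fun p => F (r p)) ∈ anti5 m := anti_comp hm hr hF
  have h2 : (fun p => F (r' p)) ∈ anti5 m := anti_comp hm hr' hF
  have h3 : (fun p => F (r (r' p))) ∈ anti5 m := anti_comp hm hr' h1
  refine ⟨?_, fun p => ⟨?_, ?_⟩⟩
  · have h4 : P r r' e e' F = F + e • (fun p => F (r p)) + e' • (fun p => F (r' p)) +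
        (e * e') • (fun p => F (r (r' p))) := by
      funext p
      simp only [P_apply, Pi.add_apply, Pi.smul_apply, smul_eq_mul]
    rw [h4]
    exact Submodule.add_mem _ (Submodule.add_mem _ (Submodule.add_mem _ hF
      (Submodule.smul_mem _ _ h1)) (Submodule.smul_mem _ _ h2)) (Submodule.smul_mem _ _ h3)
  · simp only [P_apply]
    rw [k1 p, ← k3 p, k1 (r' p)]
    linear_combination (-(F (r p)) - e' * F (r (r' p))) * he
  · simp only [P_apply]
    rw [k2 p]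
    linear_combination (-(F (r' p)) - e * F (r (r' p))) * he'


/-- The map `(f, l) ↦ (f - l) + (f - l)∘sw∘cO`. -/
private def L (m : ℕ) : ((Pt m → ℂ) × (Pt m → ℂ)) →ₗ[ℂ] (Pt m → ℂ) where
  toFun F p := (F.1 p - F.2 p) + (F.1 (sw (cO p)) - F.2 (sw (cO p)))
  map_add' F F' := by
    funext p; simp only [Prod.fst_add, Prod.snd_add, Pi.add_apply]; ring
  map_smul' c F := by
    funext p
    simp only [Prod.smul_fst, Prod.smul_snd, Pi.smul_apply, smul_eq_mul, RingHom.id_apply]; ring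

private theorem L_apply {m : ℕ} (F : (Pt m → ℂ) × (Pt m → ℂ)) (p : Pt m) :
    L m F p = (F.1 p - F.2 p) + (F.1 (sw (cO p)) - F.2 (sw (cO p))) := rfl

private theorem dim_one {m n n' n'' : ℕ} (hk : S5DimK) (hm : 1 ≤ m) {r r' : Pt m → Pt m}
    (hkl : Kl r r') (hr : Ty n r) (hr' : Ty n' r') (hr'' : Ty n'' (fun p => r (r' p)))
    (hn : n + n' + n'' = 2) :
    Module.finrank ℂ (inv5 r r' (1 : ℂ) (1 : ℂ)) = 4 * 25 ^ (m - 1) + 2 * 5 ^ (m - 1) := by
  have h2 := (hk m hm).2 r r' n n' n'' 1 1 hkl hr hr' hr'' (Or.inl rfl) (Or.inl rfl)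
  rw [Int.cast_one] at h2
  have h3 : ((n : ℤ) + n' + n'') = 2 := by exact_mod_cast hn
  have h4 : (1 * (n : ℤ) + 1 * n' + 1 * 1 * n'') = 2 := by linarith
  rw [h4] at h2
  have h5 : (Module.finrank ℂ (inv5 r r' (1 : ℂ) (1 : ℂ)) : ℤ) =
      4 * 25 ^ (m - 1) + 2 * 5 ^ (m - 1) := by linarith
  exact_mod_cast h5

theorem hDimO (ht : S5Typ) (hk : S5DimK) (hs : S5Split) : S5DimO := by
  intro m hm
  obtain ⟨⟨a1, a2, a3, a4⟩, _, _, ⟨b1, b2, b3, b4⟩, ⟨c1', c2'⟩, _⟩ := ht m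
  have d1 : Module.finrank ℂ (inv5 (ng : Pt m → Pt m) sw (1 : ℂ) (1 : ℂ)) =
      4 * 25 ^ (m - 1) + 2 * 5 ^ (m - 1) := dim_one hk hm a1 a2 a3 a4 (by norm_num)
  have d2 : Module.finrank ℂ (inv5 (dR 0 : Pt m → Pt m) cO (1 : ℂ) (1 : ℂ)) =
      4 * 25 ^ (m - 1) + 2 * 5 ^ (m - 1) := dim_one hk hm b1 b2 b3 b4 (by norm_num)
  have d3 : Module.finrank ℂ (inv5 (sw : Pt m → Pt m) cO (1 : ℂ) (1 : ℂ)) =
      4 * 25 ^ (m - 1) + 2 * 5 ^ (m - 1) := dim_one hk hm c1' a3 b3 c2' (by norm_num)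
  obtain ⟨e1, e2, e3⟩ := c1'
  have hmap : ((inv5 (ng : Pt m → Pt m) sw (1 : ℂ) (1 : ℂ)).prod
      (inv5 (dR 0 : Pt m → Pt m) cO (1 : ℂ) (1 : ℂ))).map (L m) =
      inv5 (sw : Pt m → Pt m) cO (1 : ℂ) (1 : ℂ) := by
    apply le_antisymm
    · rintro _ ⟨⟨f, l⟩, ⟨⟨hf, hf'⟩, ⟨hl, hl'⟩⟩, rfl⟩
      dsimp only at hf hf' hl hl'
      have f1 : ∀ p, f (sw p) = f p := fun p => by rw [(hf' p).2, one_mul]
      have l1 : ∀ p, l (cO p) = l p := fun p => by rw [(hl' p).2, one_mul]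
      have hu : (fun p => f (sw (cO p))) ∈ anti5 m := anti_comp hm c2' hf
      have hv : (fun p => l (sw (cO p))) ∈ anti5 m := anti_comp hm c2' hl
      refine ⟨?_, fun p => ⟨?_, ?_⟩⟩
      · have h4 : L m (f, l) = (f - l) + ((fun p => f (sw (cO p))) - (fun p => l (sw (cO p)))) := by
          funext p
          simp only [L_apply, Pi.add_apply, Pi.sub_apply]
        rw [h4]
        exact Submodule.add_mem _ (Submodule.sub_mem _ hf hl) (Submodule.sub_mem _ hu hv)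
      · simp only [L_apply, one_mul]
        have g0 : sw (cO (sw p)) = cO p := by rw [e3 (sw p), e1 p]
        have g2 : l (sw p) = l (sw (cO p)) := by rw [e3 p, l1 (sw p)]
        rw [g0, f1 p, l1 p, g2, f1 (cO p)]
        ring
      · simp only [L_apply, one_mul]
        rw [e2 p, l1 p, f1 p, f1 (cO p)]
        have g2 : l (sw p) = l (sw (cO p)) := by rw [e3 p, l1 (sw p)]
        rw [g2]
        ring
    · intro φ hφ
      obtain ⟨hφ0, hφ1⟩ := hφ
      obtain ⟨f, hf, l, hl, hfn, hld, hfl⟩ := hs 0 m hm φ hφ0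
      have p1 : ∀ p, φ (sw p) = φ p := fun p => by rw [(hφ1 p).1, one_mul]
      have p2 : ∀ p, φ (cO p) = φ p := fun p => by rw [(hφ1 p).2, one_mul]
      have m1 : P (ng : Pt m → Pt m) sw (1 : ℂ) (1 : ℂ) f ∈
          inv5 (ng : Pt m → Pt m) sw (1 : ℂ) (1 : ℂ) := P_mem hm a1 a2 a3 (by norm_num) (by norm_num) hf
      have m2 : P (dR 0 : Pt m → Pt m) cO (1 : ℂ) (1 : ℂ) l ∈
          inv5 (dR 0 : Pt m → Pt m) cO (1 : ℂ) (1 : ℂ) := P_mem hm b1 b2 b3 (by norm_num) (by norm_num) hl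
      refine ⟨((8 : ℂ)⁻¹ • P (ng : Pt m → Pt m) sw (1 : ℂ) (1 : ℂ) f,
        (-(8 : ℂ)⁻¹) • P (dR 0 : Pt m → Pt m) cO (1 : ℂ) (1 : ℂ) l),
        ⟨Submodule.smul_mem _ _ m1, Submodule.smul_mem _ _ m2⟩, ?_⟩
      funext p
      rw [L_apply]
      simp only [Pi.smul_apply, smul_eq_mul, P_apply]
      rw [hfn p, hfn (sw p), hfn (sw (cO p)), hfn (sw (sw (cO p))), hld p, hld (cO p),
        hld (sw (cO p)), hld (cO (sw (cO p))), e1 (cO p)]
      have q1 : cO (sw (cO p)) = sw p := by rw [← e3 (cO p), e2 p]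
      rw [q1]
      have s1 := hfl p
      have s2 := hfl (sw p)
      have s3 := hfl (cO p)
      have s4 := hfl (sw (cO p))
      rw [p1 p] at s2
      rw [p2 p] at s3
      rw [p1 (cO p), p2 p] at s4
      linear_combination (1 / 4 : ℂ) * s1 + (1 / 4 : ℂ) * s2 + (1 / 4 : ℂ) * s3 + (1 / 4 : ℂ) * s4
  have hker : (inv5 (ng : Pt m → Pt m) sw (1 : ℂ) (1 : ℂ)).prod
      (inv5 (dR 0 : Pt m → Pt m) cO (1 : ℂ) (1 : ℂ)) ⊓ LinearMap.ker (L m) = subO m := by
    ext F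
    constructor
    · rintro ⟨⟨h1, h2⟩, h5⟩
      rw [SetLike.mem_coe, LinearMap.mem_ker] at h5
      exact ⟨h1, h2, fun p => congrFun h5 p⟩
    · rintro ⟨h1, h2, h⟩
      refine ⟨⟨h1, h2⟩, ?_⟩
      rw [SetLike.mem_coe, LinearMap.mem_ker]
      funext p
      exact h p
  have h6 := rn (L m) ((inv5 (ng : Pt m → Pt m) sw (1 : ℂ) (1 : ℂ)).prod
      (inv5 (dR 0 : Pt m → Pt m) cO (1 : ℂ) (1 : ℂ)))
  rw [hmap, hker, fr_prod, d1, d2, d3] at h6
  omega

end Pool.Agent.Helper29.W5
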